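import Pool.Agent.Helper35.PI2.St

/-! # Project PI2, module EB: pointwise facts on `bE` -/

set_option autoImplicit false

namespace Helper76.PI2

open Helper35.PI Helper35.PI2
open scoped ContDiff Manifold Topology
open Filter Set

/-- the derivative of the fourth power of the positive part -/
private theorem four_EB (x : ℝ) :
    HasDerivAt (fun y : ℝ => (max 0 y) ^ 4) (4 * (max 0 x) ^ 3) x := by
  rcases lt_trichotomy x 0 with h | h | h
  · have e : (fun y : ℝ => (max 0 y) ^ 4) =ᶠ[𝓝 x] fun _ => 0 := by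
      filter_upwards [gt_mem_nhds h] with y hy
      rw [max_eq_left hy.le]
      norm_num
    rw [max_eq_left h.le]
    simpa using (hasDerivAt_const x (0 : ℝ)).congr_of_eventuallyEq e
  · subst h
    have h1 : (fun y : ℝ => (max 0 y) ^ 4) =O[𝓝 0] fun y => ‖y - 0‖ ^ 4 := by
      refine Asymptotics.IsBigO.of_bound 1 (Eventually.of_forall fun y => ?_)
      rw [one_mul, sub_zero, norm_pow, norm_pow, norm_norm]
      refine pow_le_pow_left₀ (norm_nonneg _) ?_ 4
      rw [Real.norm_eq_abs, Real.norm_eq_abs, abs_of_nonneg (le_max_left _ _)]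
      exact max_le (abs_nonneg _) (le_abs_self _)
    have h2 := (h1.hasFDerivAt (𝕜 := ℝ) (by norm_num)).hasDerivAt
    simpa using h2
  · have e : (fun y : ℝ => (max 0 y) ^ 4) =ᶠ[𝓝 x] fun y => y ^ 4 := by
      filter_upwards [lt_mem_nhds h] with y hy
      rw [max_eq_right hy.le]
    rw [max_eq_right h.le]
    have := (hasDerivAt_pow 4 x).congr_of_eventuallyEq e
    simpa using this

theorem hEB (hV1 : StV1) (hSM : StSM) (hI2 : StI2) (hI3 : StI3) (hI4 : StI4) : StEB := by
  intro n N M _ _ _ F hF R hR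
  obtain ⟨i1, i2, i3, -⟩ := hI4 n N M F hF
  have cth : ContinuousOn (fun z : M × ℝ => thF n F z.1 z.2) (univ ×ˢ Iio 0) := by
    unfold thF
    exact (continuousOn_const.mul i3).sub (i2.norm.pow 2)
  have cps : ContinuousOn (fun z : M × ℝ => psR R F z.1 z.2) (univ ×ˢ Iio 0) := by
    unfold psR
    exact ContinuousOn.sup continuousOn_const
      (continuousOn_const.sub ((i1.norm.pow 2).div_const _))
  refine ⟨fun q t _ hq => ?_, cth, cps, fun p => ?_⟩
  · have h0 : psR R F q t = 0 := by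
      unfold psR
      apply max_eq_left
      have h1 : R ^ 2 ≤ ‖F q t‖ ^ 2 := pow_le_pow_left₀ hR.le hq 2
      have h2 : 1 ≤ ‖F q t‖ ^ 2 / R ^ 2 := by
        rw [le_div_iff₀ (by positivity), one_mul]
        exact h1
      linarith
    refine ⟨?_, h0⟩
    unfold bE
    rw [h0]
    ring
  · -- the chart at `p`
    set f : EE n × ℝ → EE N := fun z => F ((chartAt (EE n) p).symm z.1) z.2 with hf
    have hopen : IsOpen ((chartAt (EE n) p).target ×ˢ Iio (0 : ℝ)) :=
      (chartAt (EE n) p).open_target.prod isOpen_Iio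
    have hfc : ∀ z ∈ (chartAt (EE n) p).target ×ˢ Iio (0 : ℝ), ContDiffAt ℝ ∞ f z := fun z hz =>
      (hI2 n N M F hF p z hz).contDiffAt (hopen.mem_nhds hz)
    have hpt : ∀ z ∈ (chartAt (EE n) p).target ×ˢ Iio (0 : ℝ),
        LI (fun y => f (y, z.2)) z.1 ∧
        HH (n := n) F ((chartAt (EE n) p).symm z.1) z.2 = mcv (fun y => f (y, z.2)) z.1 ∧
        AA (n := n) F ((chartAt (EE n) p).symm z.1) z.2 = nsq (fun y => f (y, z.2)) z.1 := by
      intro z hz
      have h := hI3 n N M F hF p ((chartAt (EE n) p).symm z.1) z.2 hz.2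
        ((chartAt (EE n) p).map_target hz.1)
      rw [(chartAt (EE n) p).right_inv hz.1] at h
      exact ⟨h.1, h.2.1, h.2.2.1⟩
    have hjt : ∀ z ∈ (chartAt (EE n) p).target ×ˢ Iio (0 : ℝ),
        jt f z = mcv (fun y => f (y, z.2)) z.1 := by
      intro z hz
      rw [← (hpt z hz).2.1]
      have h1 : HasFDerivAt f (fderiv ℝ f z) (z.1, z.2) :=
        ((hfc z hz).differentiableAt (by simp)).hasFDerivAt
      have h2 : HasDerivAt (fun r : ℝ => (z.1, r)) ((0 : EE n), (1 : ℝ)) z.2 :=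
        (hasDerivAt_const z.2 z.1).prodMk (hasDerivAt_id z.2)
      have h3 : HasDerivAt (fun r : ℝ => f (z.1, r)) (fderiv ℝ f z (0, 1)) z.2 :=
        h1.comp_hasDerivAt z.2 h2
      exact h3.unique (hF.flow ((chartAt (EE n) p).symm z.1) z.2 hz.2)
    have hsg : ∀ z ∈ (chartAt (EE n) p).target ×ˢ Iio (0 : ℝ),
        ContinuousAt (fun z : EE n × ℝ => sgm (loc (n := n) F p z.2) z.1) z ∧
        HasDerivAt (fun r => sgm (loc (n := n) F p r) z.1)
          (-‖HH (n := n) F ((chartAt (EE n) p).symm z.1) z.2‖ ^ 2 * sgm (loc (n := n) F p z.2) z.1)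
          z.2 := by
      intro z hz
      obtain ⟨-, h2, h3⟩ := hV1 n N f z (hfc z hz) (hpt z hz).1
      refine ⟨h2.continuousAt, ?_⟩
      have h4 := h3 (by
        filter_upwards [hopen.mem_nhds hz] with z' hz'
        exact hjt z' hz')
      rw [(hpt z hz).2.1]
      exact h4
    -- the function `θ` in the chart
    set Φ : EE n × ℝ → ℝ := fun z => 2 * nsq (fun y => f (y, z.2)) z.1
      - ‖mcv (fun y => f (y, z.2)) z.1‖ ^ 2 with hΦ
    have hΦs : ∀ z ∈ (chartAt (EE n) p).target ×ˢ Iio (0 : ℝ), ContDiffAt ℝ ∞ Φ z := by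
      intro z hz
      obtain ⟨-, -, -, -, -, -, -, h8, h9, -⟩ := hSM n N f z (hfc z hz) (hpt z hz).1
      exact (contDiffAt_const.mul h9).sub (h8.norm_sq ℝ)
    have hΦe : ∀ z ∈ (chartAt (EE n) p).target ×ˢ Iio (0 : ℝ),
        thF n F ((chartAt (EE n) p).symm z.1) z.2 = Φ z := by
      intro z hz
      unfold thF
      rw [(hpt z hz).2.1, (hpt z hz).2.2]
    have hΦd : ∀ z ∈ (chartAt (EE n) p).target ×ˢ Iio (0 : ℝ),
        HasDerivAt (fun s => thF n F ((chartAt (EE n) p).symm z.1) s) (fderiv ℝ Φ z (0, 1)) z.2 := by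
      intro z hz
      have h1 : HasFDerivAt Φ (fderiv ℝ Φ z) (z.1, z.2) :=
        ((hΦs z hz).differentiableAt (by simp)).hasFDerivAt
      have h2 : HasDerivAt (fun r : ℝ => (z.1, r)) ((0 : EE n), (1 : ℝ)) z.2 :=
        (hasDerivAt_const z.2 z.1).prodMk (hasDerivAt_id z.2)
      have h3 : HasDerivAt (fun r : ℝ => Φ (z.1, r)) (fderiv ℝ Φ z (0, 1)) z.2 :=
        h1.comp_hasDerivAt z.2 h2
      refine h3.congr_of_eventuallyEq ?_
      filter_upwards [Iio_mem_nhds hz.2] with s hs
      exact hΦe (z.1, s) ⟨hz.1, hs⟩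
    have hΦc : ContinuousOn (fun z => fderiv ℝ Φ z (0, 1))
        ((chartAt (EE n) p).target ×ˢ Iio (0 : ℝ)) := by
      intro z hz
      have h1 : ContDiffAt ℝ 0 (fderiv ℝ Φ) z := by
        refine (hΦs z hz).fderiv_right (m := 0) ?_
        simp
      exact (h1.continuousAt.clm_apply continuousAt_const).continuousWithinAt
    have hdt : ContinuousOn (fun z : EE n × ℝ =>
        deriv (fun s => thF n F ((chartAt (EE n) p).symm z.1) s) z.2)
        ((chartAt (EE n) p).target ×ˢ Iio (0 : ℝ)) :=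
      hΦc.congr fun z hz => (hΦd z hz).deriv
    have cs : ContinuousOn (fun z : EE n × ℝ => sgm (loc (n := n) F p z.2) z.1)
        ((chartAt (EE n) p).target ×ˢ Iio (0 : ℝ)) := fun z hz => (hsg z hz).1.continuousWithinAt
    refine ⟨fun y hy t ht => ?_, ?_, cs⟩
    · have hz : ((y, t) : EE n × ℝ) ∈ (chartAt (EE n) p).target ×ˢ Iio (0 : ℝ) := ⟨hy, ht⟩
      set q := (chartAt (EE n) p).symm y with hq
      have hF' : HasDerivAt (fun r => F q r) (HH (n := n) F q t) t := hF.flow q t ht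
      have hv : HasDerivAt (fun r => 1 - ‖F q r‖ ^ 2 / R ^ 2)
          (-((2 * inner ℝ (F q t) (HH (n := n) F q t)) / R ^ 2)) t := by
        have h1 := hF'.norm_sq
        exact (h1.div_const (R ^ 2)).const_sub 1
      have hw3 : HasDerivAt (fun r => psR R F q r ^ 4)
          (4 * psR R F q t ^ 3 * (-((2 * inner ℝ (F q t) (HH (n := n) F q t)) / R ^ 2))) t := by
        have h1 : HasDerivAt ((fun y : ℝ => (max 0 y) ^ 4) ∘
            (fun r => 1 - ‖F q r‖ ^ 2 / R ^ 2))
            (4 * (max 0 (1 - ‖F q t‖ ^ 2 / R ^ 2)) ^ 3 *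
              (-((2 * inner ℝ (F q t) (HH (n := n) F q t)) / R ^ 2))) t :=
          HasDerivAt.comp t (four_EB _) hv
        exact h1
      have hth : HasDerivAt (fun s => thF n F q s) (fderiv ℝ Φ (y, t) (0, 1)) t := hΦd (y, t) hz
      have hsg' : HasDerivAt (fun r => sgm (loc (n := n) F p r) y)
          (-‖HH (n := n) F q t‖ ^ 2 * sgm (loc (n := n) F p t) y) t := (hsg (y, t) hz).2
      have h := (hw3.mul hth).mul hsg'
      refine h.congr_deriv ?_
      unfold bE
      rw [← hth.deriv]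
      simp only [Pi.mul_apply]
      ring
    · have hmap : ContinuousOn (fun z : EE n × ℝ => (((chartAt (EE n) p).symm z.1, z.2) : M × ℝ))
          ((chartAt (EE n) p).target ×ˢ Iio (0 : ℝ)) := by
        refine ContinuousOn.prodMk ?_ continuousOn_snd
        exact (chartAt (EE n) p).continuousOn_symm.comp continuousOn_fst fun z hz => hz.1
      have hmt : MapsTo (fun z : EE n × ℝ => (((chartAt (EE n) p).symm z.1, z.2) : M × ℝ))
          ((chartAt (EE n) p).target ×ˢ Iio (0 : ℝ)) (univ ×ˢ Iio 0) := fun z hz => ⟨mem_univ _, hz.2⟩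
      have comp_EB : ∀ (V : Type) [TopologicalSpace V] (g : M → ℝ → V),
          ContinuousOn (fun z : M × ℝ => g z.1 z.2) (univ ×ˢ Iio 0) →
          ContinuousOn (fun z : EE n × ℝ => g ((chartAt (EE n) p).symm z.1) z.2)
            ((chartAt (EE n) p).target ×ˢ Iio (0 : ℝ)) := fun V _ g hg => hg.comp hmap hmt
      have cF : ContinuousOn (fun z : EE n × ℝ => F ((chartAt (EE n) p).symm z.1) z.2)
          ((chartAt (EE n) p).target ×ˢ Iio (0 : ℝ)) := comp_EB (EE N) F i1
      have cH : ContinuousOn (fun z : EE n × ℝ => HH (n := n) F ((chartAt (EE n) p).symm z.1) z.2)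
          ((chartAt (EE n) p).target ×ˢ Iio (0 : ℝ)) :=
        comp_EB (EE N) (fun q r => HH (n := n) F q r) i2
      have cT : ContinuousOn (fun z : EE n × ℝ => thF n F ((chartAt (EE n) p).symm z.1) z.2)
          ((chartAt (EE n) p).target ×ˢ Iio (0 : ℝ)) := comp_EB ℝ (thF n F) cth
      have cP : ContinuousOn (fun z : EE n × ℝ => psR R F ((chartAt (EE n) p).symm z.1) z.2)
          ((chartAt (EE n) p).target ×ˢ Iio (0 : ℝ)) := comp_EB ℝ (psR R F) cps
      refine ContinuousOn.mul ?_ cs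
      unfold bE
      exact ((((continuousOn_const.mul (cP.pow 3)).mul (cF.inner cH)).mul cT).add
        ((cP.pow 4).mul hdt)).sub ((cH.norm.pow 2).mul ((cP.pow 4).mul cT))

end Helper76.PI2
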